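import Pool.Agent.H20.PT.Hyp

/-!
# The chain recurrent set is closed and invariant (`S_CRI`)
-/

set_option autoImplicit false

open Filter Set Metric Topology

universe u

namespace Pool.Agent.H18.PT

open Pool.Agent.H20.PT Pool.Agent.H728R2.OS

theorem chainRec_map {X : Type u} [MetricSpace X] {f : X ≃ₜ X} {g : X → X}
    (hg : UniformContinuous g) (hfg : ∀ x, f (g x) = g (f x)) {x : X} (hx : x ∈ ChainRec f) :
    g x ∈ ChainRec f := by
  intro ε hε
  obtain ⟨δ, hδ, h1⟩ := Metric.uniformContinuous_iff.1 hg ε hε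
  obtain ⟨n, c, hn, h0, h2, h3⟩ := hx δ hδ
  refine ⟨n, fun i => g (c i), hn, congrArg g h0, congrArg g h2, fun i hi => ?_⟩
  rw [hfg]
  exact h1 (h3 i hi)

theorem chainRec_closed {X : Type u} [MetricSpace X] (f : X ≃ₜ X) : IsClosed (ChainRec f) := by
  refine isClosed_of_closure_subset fun x hx ε hε => ?_
  obtain ⟨δ, hδ, h1⟩ := Metric.continuousAt_iff.1 (f.continuous.continuousAt (x := x)) (ε / 3)
    (by positivity)
  obtain ⟨y, hy, hxy⟩ := Metric.mem_closure_iff.1 hx (min δ (ε / 3)) (by positivity)
  obtain ⟨n, c, hn, h0, h2, h3⟩ := hy (ε / 3) (by positivity)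
  have hyx : dist y x < ε / 3 := by
    rw [dist_comm]
    exact hxy.trans_le (min_le_right _ _)
  have hfx : dist (f x) (f y) < ε / 3 := by
    rw [dist_comm]
    refine h1 ?_
    rw [dist_comm]
    exact hxy.trans_le (min_le_left _ _)
  refine ⟨n, fun i => if i = 0 ∨ i = n then x else c i, hn, by simp, by simp, fun i hi => ?_⟩
  have ha : dist (f (if i = 0 ∨ i = n then x else c i)) (f (c i)) < ε / 3 := by
    split_ifs with h
    · have : i = 0 := h.resolve_right hi.ne
      rw [this, h0]
      exact hfx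
    · rw [dist_self]
      positivity
  have hb : dist (c (i + 1)) (if i + 1 = 0 ∨ i + 1 = n then x else c (i + 1)) < ε / 3 := by
    by_cases h : i + 1 = n
    · rw [if_pos (Or.inr h), h, h2]
      exact hyx
    · rw [if_neg (by omega), dist_self]
      positivity
  have hc := h3 i hi
  have h4 := dist_triangle4 (f (if i = 0 ∨ i = n then x else c i)) (f (c i)) (c (i + 1))
    (if i + 1 = 0 ∨ i + 1 = n then x else c (i + 1))
  exact h4.trans_lt (by linarith)

/-- **CRI.** -/
theorem cri : S_CRI.{u} := by
  intro X _ _ f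
  refine ⟨chainRec_closed f, Subset.antisymm ?_ fun x hx => ?_⟩
  · rintro _ ⟨x, hx, rfl⟩
    exact chainRec_map (CompactSpace.uniformContinuous_of_continuous f.continuous)
      (fun _ => rfl) hx
  · refine ⟨f.symm x, chainRec_map
      (CompactSpace.uniformContinuous_of_continuous f.symm.continuous) (fun y => ?_) hx, ?_⟩
    · rw [Homeomorph.apply_symm_apply, Homeomorph.symm_apply_apply]
    · exact Homeomorph.apply_symm_apply _ _

end Pool.Agent.H18.PT
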