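import Pool.Agent.H20.PT.Hyp

/-!
# Products of hyperbolic sets (`S_PROD`)

`p₁`, `p₂` are the two projections of `T ≃ M × N`. The norm on `T` is `Nm₁ ∘ Dp₁ + Nm₂ ∘ Dp₂`, the stable
spaces are the vectors with stable images in both factors.
-/

set_option autoImplicit false
set_option linter.unusedSectionVars false

open scoped Manifold ContDiff Topology
open Filter Set Metric

universe u v w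

namespace Pool.Agent.H18.PT

open Pool.Agent.H20.PT Pool.Agent.H718R2.G Pool.Agent.R773.TE
open Pool.Agent.H721R2 Q263.HS

section gen

variable {E E₁ E₂ : Type} [NormedAddCommGroup E] [NormedSpace ℝ E]
  [NormedAddCommGroup E₁] [NormedSpace ℝ E₁] [NormedAddCommGroup E₂] [NormedSpace ℝ E₂]
  {T : Type w} [TopologicalSpace T] [ChartedSpace E T] [IsManifold 𝓘(ℝ, E) 1 T]
  {M : Type u} [TopologicalSpace M] [ChartedSpace E₁ M] [IsManifold 𝓘(ℝ, E₁) 1 M]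
  {N : Type v} [TopologicalSpace N] [ChartedSpace E₂ N] [IsManifold 𝓘(ℝ, E₂) 1 N]

/-- The two projections of a product. -/
structure Prj (p₁ : T → M) (p₂ : T → N) : Prop where
  sm₁ : ContMDiff 𝓘(ℝ, E) 𝓘(ℝ, E₁) 1 p₁
  sm₂ : ContMDiff 𝓘(ℝ, E) 𝓘(ℝ, E₂) 1 p₂
  inj : ∀ (z : T) (w : TangentSpace 𝓘(ℝ, E) z), mfderiv 𝓘(ℝ, E) 𝓘(ℝ, E₁) p₁ z w = 0 →
    mfderiv 𝓘(ℝ, E) 𝓘(ℝ, E₂) p₂ z w = 0 → w = 0
  surj : ∀ (z : T) (u₁ : TangentSpace 𝓘(ℝ, E₁) (p₁ z)) (u₂ : TangentSpace 𝓘(ℝ, E₂) (p₂ z)),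
    ∃ w : TangentSpace 𝓘(ℝ, E) z, mfderiv 𝓘(ℝ, E) 𝓘(ℝ, E₁) p₁ z w = u₁ ∧
      mfderiv 𝓘(ℝ, E) 𝓘(ℝ, E₂) p₂ z w = u₂

theorem tn_zero {Nm : TangentBundle 𝓘(ℝ, E) T → ℝ} (h : IsTangentNorm Nm) (x : T) :
    Nm ⟨x, (0 : TangentSpace 𝓘(ℝ, E) x)⟩ = 0 := by
  have := h.smul x 0 0
  rwa [zero_smul, abs_zero, zero_mul] at this

theorem tn_nonneg {Nm : TangentBundle 𝓘(ℝ, E) T → ℝ} (h : IsTangentNorm Nm) (q) : 0 ≤ Nm q := by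
  obtain ⟨x, v⟩ := q
  by_cases hv : v = 0
  · rw [hv, tn_zero h]
  · exact (h.pos x v hv).le

/-- The norm on the product. -/
noncomputable def nmT (p₁ : T → M) (p₂ : T → N) (Nm₁ : TangentBundle 𝓘(ℝ, E₁) M → ℝ)
    (Nm₂ : TangentBundle 𝓘(ℝ, E₂) N → ℝ) (q : TangentBundle 𝓘(ℝ, E) T) : ℝ :=
  Nm₁ (tangentMap 𝓘(ℝ, E) 𝓘(ℝ, E₁) p₁ q) + Nm₂ (tangentMap 𝓘(ℝ, E) 𝓘(ℝ, E₂) p₂ q)

theorem nmT_norm {p₁ : T → M} {p₂ : T → N} (hp : Prj (E := E) (E₁ := E₁) (E₂ := E₂) p₁ p₂)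
    {Nm₁ : TangentBundle 𝓘(ℝ, E₁) M → ℝ} {Nm₂ : TangentBundle 𝓘(ℝ, E₂) N → ℝ}
    (h₁ : IsTangentNorm Nm₁) (h₂ : IsTangentNorm Nm₂) :
    IsTangentNorm (nmT (E := E) p₁ p₂ Nm₁ Nm₂) where
  continuous := (h₁.continuous.comp (hp.sm₁.continuous_tangentMap le_rfl)).add
    (h₂.continuous.comp (hp.sm₂.continuous_tangentMap le_rfl))
  pos := by
    intro z w hw
    by_cases h3 : mfderiv 𝓘(ℝ, E) 𝓘(ℝ, E₁) p₁ z w = 0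
    · have h4 : mfderiv 𝓘(ℝ, E) 𝓘(ℝ, E₂) p₂ z w ≠ 0 := fun h4 => hw (hp.inj z w h3 h4)
      exact add_pos_of_nonneg_of_pos (tn_nonneg h₁ _) (h₂.pos _ _ h4)
    · exact add_pos_of_pos_of_nonneg (h₁.pos _ _ h3) (tn_nonneg h₂ _)
  smul := by
    intro z c w
    have e1 : tangentMap 𝓘(ℝ, E) 𝓘(ℝ, E₁) p₁ ⟨z, c • w⟩ =
        ⟨p₁ z, c • mfderiv 𝓘(ℝ, E) 𝓘(ℝ, E₁) p₁ z w⟩ :=
      congrArg (Bundle.TotalSpace.mk (p₁ z)) ((mfderiv 𝓘(ℝ, E) 𝓘(ℝ, E₁) p₁ z).map_smul c w)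
    have e2 : tangentMap 𝓘(ℝ, E) 𝓘(ℝ, E₂) p₂ ⟨z, c • w⟩ =
        ⟨p₂ z, c • mfderiv 𝓘(ℝ, E) 𝓘(ℝ, E₂) p₂ z w⟩ :=
      congrArg (Bundle.TotalSpace.mk (p₂ z)) ((mfderiv 𝓘(ℝ, E) 𝓘(ℝ, E₂) p₂ z).map_smul c w)
    unfold nmT
    rw [e1, e2, h₁.smul, h₂.smul, ← mul_add]
    rfl
  add := by
    intro z w w'
    have e1 : tangentMap 𝓘(ℝ, E) 𝓘(ℝ, E₁) p₁ ⟨z, w + w'⟩ =
        ⟨p₁ z, mfderiv 𝓘(ℝ, E) 𝓘(ℝ, E₁) p₁ z w + mfderiv 𝓘(ℝ, E) 𝓘(ℝ, E₁) p₁ z w'⟩ :=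
      congrArg (Bundle.TotalSpace.mk (p₁ z)) ((mfderiv 𝓘(ℝ, E) 𝓘(ℝ, E₁) p₁ z).map_add w w')
    have e2 : tangentMap 𝓘(ℝ, E) 𝓘(ℝ, E₂) p₂ ⟨z, w + w'⟩ =
        ⟨p₂ z, mfderiv 𝓘(ℝ, E) 𝓘(ℝ, E₂) p₂ z w + mfderiv 𝓘(ℝ, E) 𝓘(ℝ, E₂) p₂ z w'⟩ :=
      congrArg (Bundle.TotalSpace.mk (p₂ z)) ((mfderiv 𝓘(ℝ, E) 𝓘(ℝ, E₂) p₂ z).map_add w w')
    unfold nmT
    rw [e1, e2]
    refine (add_le_add (h₁.add _ _ _) (h₂.add _ _ _)).trans (le_of_eq ?_)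
    rw [add_add_add_comm]
    rfl

/-- The field of subspaces on the product. -/
noncomputable def fdT (p₁ : T → M) (p₂ : T → N)
    (Z₁ : ∀ x : M, Submodule ℝ (TangentSpace 𝓘(ℝ, E₁) x))
    (Z₂ : ∀ x : N, Submodule ℝ (TangentSpace 𝓘(ℝ, E₂) x)) (z : T) :
    Submodule ℝ (TangentSpace 𝓘(ℝ, E) z) :=
  (Z₁ (p₁ z)).comap (mfderiv 𝓘(ℝ, E) 𝓘(ℝ, E₁) p₁ z).toLinearMap ⊓
    (Z₂ (p₂ z)).comap (mfderiv 𝓘(ℝ, E) 𝓘(ℝ, E₂) p₂ z).toLinearMap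

theorem inv_a {f : T → T} {Λ : Set T} {Z : ∀ x : T, Submodule ℝ (TangentSpace 𝓘(ℝ, E) x)}
    (h : InvOn f Λ Z) {q : TangentBundle 𝓘(ℝ, E) T} (hq : q.1 ∈ Λ) (hv : q.2 ∈ Z q.1) :
    (tangentMap 𝓘(ℝ, E) 𝓘(ℝ, E) f q).2 ∈ Z (tangentMap 𝓘(ℝ, E) 𝓘(ℝ, E) f q).1 := by
  have := h q.1 hq
  change mfderiv 𝓘(ℝ, E) 𝓘(ℝ, E) f q.1 q.2 ∈ Z (f q.1)
  rw [← this]
  exact Submodule.mem_map_of_mem hv

theorem inv_b {f : T → T} {Λ : Set T} {Z : ∀ x : T, Submodule ℝ (TangentSpace 𝓘(ℝ, E) x)}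
    (h : InvOn f Λ Z) {x : T} (hx : x ∈ Λ) {q : TangentBundle 𝓘(ℝ, E) T} (hq : q.1 = f x)
    (hv : q.2 ∈ Z q.1) : ∃ u ∈ Z x, tangentMap 𝓘(ℝ, E) 𝓘(ℝ, E) f ⟨x, u⟩ = q := by
  obtain ⟨y, v⟩ := q
  change y = f x at hq
  subst hq
  change v ∈ Z (f x) at hv
  rw [← h x hx] at hv
  obtain ⟨u, hu, rfl⟩ := hv
  exact ⟨u, hu, rfl⟩

theorem tm_comm {p : T → M} {F : T → T} {f : M → M} (hp : ContMDiff 𝓘(ℝ, E) 𝓘(ℝ, E₁) 1 p)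
    (hF : ContMDiff 𝓘(ℝ, E) 𝓘(ℝ, E) 1 F) (hf : ContMDiff 𝓘(ℝ, E₁) 𝓘(ℝ, E₁) 1 f)
    (h : ∀ z, p (F z) = f (p z)) (q : TangentBundle 𝓘(ℝ, E) T) :
    tangentMap 𝓘(ℝ, E) 𝓘(ℝ, E₁) p (tangentMap 𝓘(ℝ, E) 𝓘(ℝ, E) F q) =
      tangentMap 𝓘(ℝ, E₁) 𝓘(ℝ, E₁) f (tangentMap 𝓘(ℝ, E) 𝓘(ℝ, E₁) p q) := by
  have h1 := tangentMap_comp_at (I := 𝓘(ℝ, E)) (I' := 𝓘(ℝ, E)) (I'' := 𝓘(ℝ, E₁)) (g := p) (f := F)
    q (hp.mdifferentiable (by simp) _) (hF.mdifferentiable (by simp) _)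
  have h2 := tangentMap_comp_at (I := 𝓘(ℝ, E)) (I' := 𝓘(ℝ, E₁)) (I'' := 𝓘(ℝ, E₁)) (g := f) (f := p)
    q (hf.mdifferentiable (by simp) _) (hp.mdifferentiable (by simp) _)
  rw [← h1, ← h2]
  congr 1
  exact funext h

theorem sm_iter {f : M → M} (hf : ContMDiff 𝓘(ℝ, E₁) 𝓘(ℝ, E₁) 1 f) (k : ℕ) :
    ContMDiff 𝓘(ℝ, E₁) 𝓘(ℝ, E₁) 1 f^[k] := by
  induction k with
  | zero => exact contMDiff_id
  | succ k ih => exact ih.comp hf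

theorem cm_iter {p : T → M} {F : T → T} {f : M → M} (h : ∀ z, p (F z) = f (p z)) (k : ℕ) (z : T) :
    p (F^[k] z) = f^[k] (p z) := by
  induction k generalizing z with
  | zero => rfl
  | succ k ih => rw [Function.iterate_succ_apply, Function.iterate_succ_apply, ih, h]

variable {p₁ : T → M} {p₂ : T → N} {F : T → T} {f : M → M} {g : N → N} {K₁ : Set M} {K₂ : Set N}

theorem inv_T (hp : Prj (E := E) (E₁ := E₁) (E₂ := E₂) p₁ p₂)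
    (hF : ContMDiff 𝓘(ℝ, E) 𝓘(ℝ, E) 1 F) (hf : ContMDiff 𝓘(ℝ, E₁) 𝓘(ℝ, E₁) 1 f)
    (hg : ContMDiff 𝓘(ℝ, E₂) 𝓘(ℝ, E₂) 1 g) (h1 : ∀ z, p₁ (F z) = f (p₁ z))
    (h2 : ∀ z, p₂ (F z) = g (p₂ z)) {Z₁ : ∀ x : M, Submodule ℝ (TangentSpace 𝓘(ℝ, E₁) x)}
    {Z₂ : ∀ x : N, Submodule ℝ (TangentSpace 𝓘(ℝ, E₂) x)} (i₁ : InvOn f K₁ Z₁)
    (i₂ : InvOn g K₂ Z₂) : InvOn F (p₁ ⁻¹' K₁ ∩ p₂ ⁻¹' K₂) (fdT (E := E) p₁ p₂ Z₁ Z₂) := by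
  intro z hz
  refine le_antisymm ?_ fun w' hw' => ?_
  · rintro _ ⟨w, hw, rfl⟩
    refine ⟨?_, ?_⟩
    · have e1 := inv_a i₁ (q := tangentMap 𝓘(ℝ, E) 𝓘(ℝ, E₁) p₁ ⟨z, w⟩) hz.1 hw.1
      rw [← tm_comm hp.sm₁ hF hf h1] at e1
      exact e1
    · have e1 := inv_a i₂ (q := tangentMap 𝓘(ℝ, E) 𝓘(ℝ, E₂) p₂ ⟨z, w⟩) hz.2 hw.2
      rw [← tm_comm hp.sm₂ hF hg h2] at e1
      exact e1
  · obtain ⟨u₁, hu₁, e₁⟩ := inv_b i₁ (x := p₁ z) hz.1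
      (q := tangentMap 𝓘(ℝ, E) 𝓘(ℝ, E₁) p₁ ⟨F z, w'⟩) (h1 z) hw'.1
    obtain ⟨u₂, hu₂, e₂⟩ := inv_b i₂ (x := p₂ z) hz.2
      (q := tangentMap 𝓘(ℝ, E) 𝓘(ℝ, E₂) p₂ ⟨F z, w'⟩) (h2 z) hw'.2
    obtain ⟨w, hw₁, hw₂⟩ := hp.surj z u₁ u₂
    refine ⟨w, ⟨?_, ?_⟩, ?_⟩
    · change mfderiv 𝓘(ℝ, E) 𝓘(ℝ, E₁) p₁ z w ∈ Z₁ (p₁ z)
      rw [hw₁]
      exact hu₁
    · change mfderiv 𝓘(ℝ, E) 𝓘(ℝ, E₂) p₂ z w ∈ Z₂ (p₂ z)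
      rw [hw₂]
      exact hu₂
    · have a₁ := tm_comm hp.sm₁ hF hf h1 ⟨z, w⟩
      have a₂ := tm_comm hp.sm₂ hF hg h2 ⟨z, w⟩
      have b₁ : tangentMap 𝓘(ℝ, E) 𝓘(ℝ, E₁) p₁ ⟨z, w⟩ = ⟨p₁ z, u₁⟩ :=
        congrArg (Bundle.TotalSpace.mk (p₁ z)) hw₁
      have b₂ : tangentMap 𝓘(ℝ, E) 𝓘(ℝ, E₂) p₂ ⟨z, w⟩ = ⟨p₂ z, u₂⟩ :=
        congrArg (Bundle.TotalSpace.mk (p₂ z)) hw₂
      rw [b₁, e₁] at a₁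
      rw [b₂, e₂] at a₂
      have c₁ : mfderiv 𝓘(ℝ, E) 𝓘(ℝ, E₁) p₁ (F z) (mfderiv 𝓘(ℝ, E) 𝓘(ℝ, E) F z w) =
          mfderiv 𝓘(ℝ, E) 𝓘(ℝ, E₁) p₁ (F z) w' := by
        have := (Bundle.TotalSpace.ext_iff.1 a₁).2
        exact eq_of_heq this
      have c₂ : mfderiv 𝓘(ℝ, E) 𝓘(ℝ, E₂) p₂ (F z) (mfderiv 𝓘(ℝ, E) 𝓘(ℝ, E) F z w) =
          mfderiv 𝓘(ℝ, E) 𝓘(ℝ, E₂) p₂ (F z) w' := by
        have := (Bundle.TotalSpace.ext_iff.1 a₂).2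
        exact eq_of_heq this
      refine sub_eq_zero.1 (hp.inj (F z) _ ?_ ?_)
      · rw [map_sub]
        exact sub_eq_zero.2 c₁
      · rw [map_sub]
        exact sub_eq_zero.2 c₂

theorem rate_T (hp : Prj (E := E) (E₁ := E₁) (E₂ := E₂) p₁ p₂)
    (hF : ContMDiff 𝓘(ℝ, E) 𝓘(ℝ, E) 1 F) (hf : ContMDiff 𝓘(ℝ, E₁) 𝓘(ℝ, E₁) 1 f)
    (hg : ContMDiff 𝓘(ℝ, E₂) 𝓘(ℝ, E₂) 1 g) (h1 : ∀ z, p₁ (F z) = f (p₁ z))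
    (h2 : ∀ z, p₂ (F z) = g (p₂ z)) {Z₁ : ∀ x : M, Submodule ℝ (TangentSpace 𝓘(ℝ, E₁) x)}
    {Z₂ : ∀ x : N, Submodule ℝ (TangentSpace 𝓘(ℝ, E₂) x)}
    {Nm₁ : TangentBundle 𝓘(ℝ, E₁) M → ℝ} {Nm₂ : TangentBundle 𝓘(ℝ, E₂) N → ℝ}
    (n₁ : IsTangentNorm Nm₁) (n₂ : IsTangentNorm Nm₂) {C₁ C₂ a₁ a₂ : ℝ} (ha₁ : 0 < a₁)
    (ha₂ : 0 < a₂) (r₁ : RateOn f K₁ Nm₁ Z₁ C₁ a₁) (r₂ : RateOn g K₂ Nm₂ Z₂ C₂ a₂) :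
    RateOn F (p₁ ⁻¹' K₁ ∩ p₂ ⁻¹' K₂) (nmT (E := E) p₁ p₂ Nm₁ Nm₂) (fdT (E := E) p₁ p₂ Z₁ Z₂)
      (|C₁| + |C₂|) (max a₁ a₂) := by
  intro k z hz w hw
  have e1 := tm_comm hp.sm₁ (sm_iter hF k) (sm_iter hf k) (cm_iter h1 k) ⟨z, w⟩
  have e2 := tm_comm hp.sm₂ (sm_iter hF k) (sm_iter hg k) (cm_iter h2 k) ⟨z, w⟩
  have e3 := r₁ k (p₁ z) hz.1 _ hw.1
  have e4 := r₂ k (p₂ z) hz.2 _ hw.2
  have m₁ : 0 ≤ Nm₁ (tangentMap 𝓘(ℝ, E) 𝓘(ℝ, E₁) p₁ ⟨z, w⟩) := tn_nonneg n₁ _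
  have m₂ : 0 ≤ Nm₂ (tangentMap 𝓘(ℝ, E) 𝓘(ℝ, E₂) p₂ ⟨z, w⟩) := tn_nonneg n₂ _
  have f1 : C₁ * a₁ ^ k ≤ (|C₁| + |C₂|) * max a₁ a₂ ^ k := by
    calc C₁ * a₁ ^ k ≤ |C₁| * a₁ ^ k := by
          gcongr
          exact le_abs_self _
      _ ≤ (|C₁| + |C₂|) * max a₁ a₂ ^ k := by
          gcongr
          · exact le_add_of_nonneg_right (abs_nonneg _)
          · exact le_max_left _ _
  have f2 : C₂ * a₂ ^ k ≤ (|C₁| + |C₂|) * max a₁ a₂ ^ k := by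
    calc C₂ * a₂ ^ k ≤ |C₂| * a₂ ^ k := by
          gcongr
          exact le_abs_self _
      _ ≤ (|C₁| + |C₂|) * max a₁ a₂ ^ k := by
          gcongr
          · exact le_add_of_nonneg_left (abs_nonneg _)
          · exact le_max_right _ _
  unfold nmT
  rw [e1, e2, mul_add]
  exact add_le_add (e3.trans (mul_le_mul_of_nonneg_right f1 m₁))
    (e4.trans (mul_le_mul_of_nonneg_right f2 m₂))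

theorem cont_T (hp : Prj (E := E) (E₁ := E₁) (E₂ := E₂) p₁ p₂)
    {Z₁ : ∀ x : M, Submodule ℝ (TangentSpace 𝓘(ℝ, E₁) x)}
    {Z₂ : ∀ x : N, Submodule ℝ (TangentSpace 𝓘(ℝ, E₂) x)} (c₁ : ContOn K₁ Z₁)
    (c₂ : ContOn K₂ Z₂) : ContOn (p₁ ⁻¹' K₁ ∩ p₂ ⁻¹' K₂) (fdT (E := E) p₁ p₂ Z₁ Z₂) := by
  have h1 := (c₁.preimage (hp.sm₁.continuous_tangentMap le_rfl)).inter
    (c₂.preimage (hp.sm₂.continuous_tangentMap le_rfl))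
  refine (Iff.of_eq (congrArg IsClosed ?_)).1 h1
  ext q
  constructor
  · rintro ⟨⟨a1, a2⟩, ⟨b1, b2⟩⟩
    exact ⟨⟨a1, b1⟩, ⟨a2, b2⟩⟩
  · rintro ⟨⟨a1, b1⟩, ⟨a2, b2⟩⟩
    exact ⟨⟨a1, a2⟩, ⟨b1, b2⟩⟩

theorem compl_T (hp : Prj (E := E) (E₁ := E₁) (E₂ := E₂) p₁ p₂)
    {S₁ U₁ : ∀ x : M, Submodule ℝ (TangentSpace 𝓘(ℝ, E₁) x)}
    {S₂ U₂ : ∀ x : N, Submodule ℝ (TangentSpace 𝓘(ℝ, E₂) x)} {z : T}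
    (c₁ : IsCompl (S₁ (p₁ z)) (U₁ (p₁ z))) (c₂ : IsCompl (S₂ (p₂ z)) (U₂ (p₂ z))) :
    IsCompl (fdT (E := E) p₁ p₂ S₁ S₂ z) (fdT (E := E) p₁ p₂ U₁ U₂ z) := by
  constructor
  · rw [Submodule.disjoint_def]
    intro w hs hu
    exact hp.inj z w (Submodule.disjoint_def.1 c₁.disjoint _ hs.1 hu.1)
      (Submodule.disjoint_def.1 c₂.disjoint _ hs.2 hu.2)
  · rw [codisjoint_iff, Submodule.eq_top_iff']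
    intro w
    obtain ⟨s₁, hs₁, u₁, hu₁, e₁⟩ := Submodule.mem_sup.1
      ((codisjoint_iff.1 c₁.codisjoint).symm ▸ Submodule.mem_top :
        mfderiv 𝓘(ℝ, E) 𝓘(ℝ, E₁) p₁ z w ∈ S₁ (p₁ z) ⊔ U₁ (p₁ z))
    obtain ⟨s₂, hs₂, u₂, hu₂, e₂⟩ := Submodule.mem_sup.1
      ((codisjoint_iff.1 c₂.codisjoint).symm ▸ Submodule.mem_top :
        mfderiv 𝓘(ℝ, E) 𝓘(ℝ, E₂) p₂ z w ∈ S₂ (p₂ z) ⊔ U₂ (p₂ z))
    obtain ⟨s, hs1, hs2⟩ := hp.surj z s₁ s₂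
    refine Submodule.mem_sup.2 ⟨s, ⟨?_, ?_⟩, w - s, ⟨?_, ?_⟩, add_sub_cancel _ _⟩
    · change mfderiv 𝓘(ℝ, E) 𝓘(ℝ, E₁) p₁ z s ∈ S₁ (p₁ z)
      rw [hs1]
      exact hs₁
    · change mfderiv 𝓘(ℝ, E) 𝓘(ℝ, E₂) p₂ z s ∈ S₂ (p₂ z)
      rw [hs2]
      exact hs₂
    · change mfderiv 𝓘(ℝ, E) 𝓘(ℝ, E₁) p₁ z (w - s) ∈ U₁ (p₁ z)
      rw [map_sub, hs1, ← e₁, add_sub_cancel_left]
      exact hu₁
    · change mfderiv 𝓘(ℝ, E) 𝓘(ℝ, E₂) p₂ z (w - s) ∈ U₂ (p₂ z)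
      rw [map_sub, hs2, ← e₂, add_sub_cancel_left]
      exact hu₂

end gen

theorem hyp_T {E E₁ E₂ : Type} [NormedAddCommGroup E] [NormedSpace ℝ E]
    [NormedAddCommGroup E₁] [NormedSpace ℝ E₁] [NormedAddCommGroup E₂] [NormedSpace ℝ E₂]
    {T : Type w} [TopologicalSpace T] [ChartedSpace E T] [IsManifold 𝓘(ℝ, E) 1 T]
    {M : Type u} [TopologicalSpace M] [ChartedSpace E₁ M] [IsManifold 𝓘(ℝ, E₁) 1 M]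
    {N : Type v} [TopologicalSpace N] [ChartedSpace E₂ N] [IsManifold 𝓘(ℝ, E₂) 1 N]
    {p₁ : T → M} {p₂ : T → N} (hp : Prj (E := E) (E₁ := E₁) (E₂ := E₂) p₁ p₂)
    {f : M ≃ₜ M} {g : N ≃ₜ N} {F : T ≃ₜ T}
    (hf : ContMDiff 𝓘(ℝ, E₁) 𝓘(ℝ, E₁) 1 f) (hf' : ContMDiff 𝓘(ℝ, E₁) 𝓘(ℝ, E₁) 1 f.symm)
    (hg : ContMDiff 𝓘(ℝ, E₂) 𝓘(ℝ, E₂) 1 g) (hg' : ContMDiff 𝓘(ℝ, E₂) 𝓘(ℝ, E₂) 1 g.symm)
    (hF : ContMDiff 𝓘(ℝ, E) 𝓘(ℝ, E) 1 F) (hF' : ContMDiff 𝓘(ℝ, E) 𝓘(ℝ, E) 1 F.symm)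
    (h1 : ∀ z, p₁ (F z) = f (p₁ z)) (h2 : ∀ z, p₂ (F z) = g (p₂ z)) {K₁ : Set M} {K₂ : Set N}
    (k₁ : IsHyp E₁ f K₁) (k₂ : IsHyp E₂ g K₂) : IsHyp E F (p₁ ⁻¹' K₁ ∩ p₂ ⁻¹' K₂) := by
  obtain ⟨Nm₁, S₁, U₁, C₁, a₁, H₁⟩ := k₁
  obtain ⟨Nm₂, S₂, U₂, C₂, a₂, H₂⟩ := k₂
  have h1' : ∀ z, p₁ (F.symm z) = f.symm (p₁ z) := fun z => by
    rw [Homeomorph.eq_symm_apply, ← h1, Homeomorph.apply_symm_apply]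
  have h2' : ∀ z, p₂ (F.symm z) = g.symm (p₂ z) := fun z => by
    rw [Homeomorph.eq_symm_apply, ← h2, Homeomorph.apply_symm_apply]
  refine ⟨nmT p₁ p₂ Nm₁ Nm₂, fdT p₁ p₂ S₁ S₂, fdT p₁ p₂ U₁ U₂, |C₁| + |C₂|, max a₁ a₂, ?_⟩
  exact
    { norm := nmT_norm hp H₁.norm H₂.norm
      closed := (H₁.closed.preimage hp.sm₁.continuous).inter
        (H₂.closed.preimage hp.sm₂.continuous)
      inv := by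
        refine Subset.antisymm ?_ fun z hz => ⟨F.symm z, ⟨?_, ?_⟩, F.apply_symm_apply z⟩
        · rintro _ ⟨z, hz, rfl⟩
          refine ⟨?_, ?_⟩
          · change p₁ (F z) ∈ K₁
            rw [h1, ← H₁.inv]
            exact mem_image_of_mem _ hz.1
          · change p₂ (F z) ∈ K₂
            rw [h2, ← H₂.inv]
            exact mem_image_of_mem _ hz.2
        · change p₁ (F.symm z) ∈ K₁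
          have e1 : p₁ z ∈ f '' K₁ := H₁.inv.symm ▸ hz.1
          obtain ⟨x, hx, hxz⟩ := e1
          rw [h1', ← hxz, Homeomorph.symm_apply_apply]
          exact hx
        · change p₂ (F.symm z) ∈ K₂
          have e1 : p₂ z ∈ g '' K₂ := H₂.inv.symm ▸ hz.2
          obtain ⟨x, hx, hxz⟩ := e1
          rw [h2', ← hxz, Homeomorph.symm_apply_apply]
          exact hx
      a_pos := lt_max_of_lt_left H₁.a_pos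
      a_lt := max_lt H₁.a_lt H₂.a_lt
      map_s := inv_T hp hF hf hg h1 h2 H₁.map_s H₂.map_s
      map_u := inv_T hp hF hf hg h1 h2 H₁.map_u H₂.map_u
      rate_s := rate_T hp hF hf hg h1 h2 H₁.norm H₂.norm H₁.a_pos H₂.a_pos H₁.rate_s H₂.rate_s
      rate_u := rate_T hp hF' hf' hg' h1' h2' H₁.norm H₂.norm H₁.a_pos H₂.a_pos H₁.rate_u H₂.rate_u
      compl := fun z hz => compl_T hp (H₁.compl _ hz.1) (H₂.compl _ hz.2)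
      cont_s := cont_T hp H₁.cont_s H₂.cont_s
      cont_u := cont_T hp H₁.cont_u H₂.cont_u }

/-- **PROD.** -/
theorem prod : S_PROD.{u, v, w} := by
  intro d e n M _ _ _ _ _ _ N _ _ _ _ _ _ T _ _ _ _ _ _ Θ f g F hf hf' hg hg' hF hF' hP K₁ K₂ k₁ k₂
  let p₁ : T → M := fun z => (Θ.symm z).1
  let p₂ : T → N := fun z => (Θ.symm z).2
  have hd : ∀ z, MDifferentiableAt (𝓡 n) ((𝓡 d).prod (𝓡 e)) Θ.symm z := fun z =>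
    Θ.symm.contMDiff.mdifferentiable (by simp) z
  have m₁ : ∀ z (w : TangentSpace (𝓡 n) z), mfderiv (𝓡 n) (𝓡 d) p₁ z w =
      (mfderiv (𝓡 n) ((𝓡 d).prod (𝓡 e)) Θ.symm z w).1 := fun z w => by
    have : mfderiv (𝓡 n) (𝓡 d) p₁ z = _ := mfderiv_comp z mdifferentiableAt_fst (hd z)
    rw [this, mfderiv_fst]
    rfl
  have m₂ : ∀ z (w : TangentSpace (𝓡 n) z), mfderiv (𝓡 n) (𝓡 e) p₂ z w =
      (mfderiv (𝓡 n) ((𝓡 d).prod (𝓡 e)) Θ.symm z w).2 := fun z w => by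
    have : mfderiv (𝓡 n) (𝓡 e) p₂ z = _ := mfderiv_comp z mdifferentiableAt_snd (hd z)
    rw [this, mfderiv_snd]
    rfl
  have hp : Prj (E := V n) (E₁ := V d) (E₂ := V e) p₁ p₂ :=
    { sm₁ := (contMDiff_fst.comp Θ.symm.contMDiff).of_le (by simp)
      sm₂ := (contMDiff_snd.comp Θ.symm.contMDiff).of_le (by simp)
      inj := fun z w e1 e2 => by
        have e3 : Θ.symm.mfderivToContinuousLinearEquiv (by simp) z w = 0 := by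
          refine Prod.ext ?_ ?_
          · exact (m₁ z w).symm.trans e1
          · exact (m₂ z w).symm.trans e2
        exact (ContinuousLinearEquiv.map_eq_zero_iff _).1 e3
      surj := fun z u₁ u₂ => by
        refine ⟨(Θ.symm.mfderivToContinuousLinearEquiv (by simp) z).symm (u₁, u₂), ?_, ?_⟩
        · refine (m₁ z _).trans ?_
          exact congrArg Prod.fst
            ((Θ.symm.mfderivToContinuousLinearEquiv (by simp) z).apply_symm_apply (u₁, u₂))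
        · refine (m₂ z _).trans ?_
          exact congrArg Prod.snd
            ((Θ.symm.mfderivToContinuousLinearEquiv (by simp) z).apply_symm_apply (u₁, u₂)) }
  have hΘ : ∀ z, F z = Θ (f (p₁ z), g (p₂ z)) := fun z => by
    rw [← hP]
    exact congrArg F (Θ.apply_symm_apply z).symm
  have h1 : ∀ z, p₁ (F z) = f (p₁ z) := fun z => by
    change (Θ.symm (F z)).1 = _
    rw [hΘ, Θ.symm_apply_apply]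
  have h2 : ∀ z, p₂ (F z) = g (p₂ z) := fun z => by
    change (Θ.symm (F z)).2 = _
    rw [hΘ, Θ.symm_apply_apply]
  have hK : Θ '' (K₁ ×ˢ K₂) = p₁ ⁻¹' K₁ ∩ p₂ ⁻¹' K₂ := by
    ext z
    constructor
    · rintro ⟨⟨x, y⟩, ⟨hx, hy⟩, rfl⟩
      refine ⟨?_, ?_⟩
      · change (Θ.symm (Θ (x, y))).1 ∈ K₁
        rw [Θ.symm_apply_apply]
        exact hx
      · change (Θ.symm (Θ (x, y))).2 ∈ K₂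
        rw [Θ.symm_apply_apply]
        exact hy
    · intro hz
      exact ⟨Θ.symm z, ⟨hz.1, hz.2⟩, Θ.apply_symm_apply z⟩
  rw [hK]
  exact hyp_T hp hf hf' hg hg' hF hF' h1 h2 k₁ k₂

end Pool.Agent.H18.PT
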