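import Pool.Agent.H20.PT.Lin

/-!
# The splitting `S_SPL`
-/

set_option autoImplicit false
set_option linter.unusedSectionVars false

open Filter Set Metric Topology

namespace Pool.Agent.H18.PT

open Pool.Agent.H20.PT

/-- A contracted recursion with small inhomogeneity tends to zero. -/
theorem seq0 {F : Type*} [NormedAddCommGroup F] {x z : ℕ → F} {l : ℝ} (hl0 : 0 ≤ l) (hl : l < 1)
    (h : ∀ p, ‖x (p + 1)‖ ≤ l * ‖x p‖ + ‖z p‖) (hz : Tendsto z atTop (𝓝 0)) :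
    Tendsto x atTop (𝓝 0) := by
  rw [NormedAddGroup.tendsto_nhds_zero] at hz ⊢
  intro ε hε
  have h1 : 0 < (1 - l) * (ε / 2) := mul_pos (sub_pos.2 hl) (half_pos hε)
  obtain ⟨P, hP⟩ := eventually_atTop.1 (hz _ h1)
  have h2 : ∀ k, ‖x (P + k)‖ ≤ l ^ k * ‖x P‖ + ε / 2 := by
    intro k
    induction k with
    | zero => simpa using (by linarith : ‖x P‖ ≤ ‖x P‖ + ε / 2)
    | succ k ih =>
      have h3 := h (P + k)
      have h4 := (hP (P + k) (by omega)).le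
      calc ‖x (P + (k + 1))‖ ≤ l * ‖x (P + k)‖ + ‖z (P + k)‖ := h3
        _ ≤ l * (l ^ k * ‖x P‖ + ε / 2) + (1 - l) * (ε / 2) := by gcongr
        _ = l ^ (k + 1) * ‖x P‖ + ε / 2 := by ring
  have h5 : Tendsto (fun k => l ^ k * ‖x P‖) atTop (𝓝 (0 * ‖x P‖)) :=
    (tendsto_pow_atTop_nhds_zero_of_lt_one hl0 hl).mul_const _
  rw [zero_mul] at h5
  obtain ⟨K, hK⟩ := eventually_atTop.1 (h5.eventually (gt_mem_nhds (half_pos hε)))
  refine eventually_atTop.2 ⟨P + K, fun p hp => ?_⟩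
  obtain ⟨k, rfl⟩ := Nat.exists_eq_add_of_le (show P ≤ p by omega)
  have h6 := hK k (by omega)
  exact (h2 k).trans_lt (by linarith)

variable {W : Type*} [NormedAddCommGroup W] [NormedSpace ℂ W]

/-- Generalised eigenvectors. -/
theorem gen (f : Module.End ℂ W) {t : ℝ} (ht : 0 ≤ t) {μ : ℂ} (hμ : t * ‖μ‖ < 1) (k : ℕ) :
    ∀ v : W, ((f - algebraMap ℂ (Module.End ℂ W) μ) ^ k) v = 0 →
      Tendsto (fun p : ℕ => ((t : ℂ) ^ p) • (f ^ p) v) atTop (𝓝 0) := by
  induction k with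
  | zero =>
    intro v hv
    have : v = 0 := by simpa using hv
    simp [this]
  | succ k ih =>
    intro v hv
    rw [pow_succ, Module.End.mul_apply] at hv
    have h1 := ih _ hv
    refine seq0 (z := fun p => (t : ℂ) • ((t : ℂ) ^ p • (f ^ p)
      ((f - algebraMap ℂ (Module.End ℂ W) μ) v))) (by positivity) hμ (fun p => ?_) ?_
    · have h2 : f v = μ • v + (f - algebraMap ℂ (Module.End ℂ W) μ) v := by
        simp [Module.algebraMap_end_apply]
      have h3 : ((t : ℂ) ^ (p + 1)) • (f ^ (p + 1)) v = ((t : ℂ) * μ) • ((t : ℂ) ^ p • (f ^ p) v) +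
          (t : ℂ) • ((t : ℂ) ^ p • (f ^ p) ((f - algebraMap ℂ (Module.End ℂ W) μ) v)) := by
        rw [pow_succ f, Module.End.mul_apply, h2, map_add, map_smul, smul_add, smul_smul, smul_smul,
          smul_smul, pow_succ]
        congr 2
        · ring
        · ring_nf
      rw [h3]
      refine (norm_add_le _ _).trans ?_
      rw [norm_smul ((t : ℂ) * μ), norm_mul, Complex.norm_real, Real.norm_of_nonneg ht]
    · simpa using h1.const_smul (t : ℂ)

/-- The splitting over `ℂ`. -/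
theorem split_c [FiniteDimensional ℂ W] (f g : Module.End ℂ W) (hfg : f * g = 1) (hgf : g * f = 1)
    {θ : ℝ} (hθ : 0 < θ)
    (he : ∀ μ : ℂ, f.HasEigenvalue μ → ‖μ‖ < θ⁻¹ ∨ θ < ‖μ‖) (v : W) :
    ∃ a b : W, v = a + b ∧ Tendsto (fun p : ℕ => ((θ : ℂ) ^ p) • (f ^ p) a) atTop (𝓝 0) ∧
      Tendsto (fun p : ℕ => ((θ : ℂ) ^ p) • (g ^ p) b) atTop (𝓝 0) := by
  have htop : v ∈ ⨆ μ, f.maxGenEigenspace μ := by
    rw [Module.End.iSup_maxGenEigenspace_eq_top]
    trivial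
  induction htop using Submodule.iSup_induction' with
  | zero => exact ⟨0, 0, by simp, by simp, by simp⟩
  | add x y _ _ hx hy =>
    obtain ⟨a, b, rfl, h1, h2⟩ := hx
    obtain ⟨a', b', rfl, h3, h4⟩ := hy
    refine ⟨a + a', b + b', by abel, ?_, ?_⟩
    · simpa using h1.add h3
    · simpa using h2.add h4
  | mem μ v hv =>
    obtain ⟨k, hk⟩ := (Module.End.mem_maxGenEigenspace f μ v).1 hv
    have hk' : ((f - algebraMap ℂ (Module.End ℂ W) μ) ^ k) v = 0 := by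
      simpa [Algebra.algebraMap_eq_smul_one] using hk
    by_cases hμ : f.HasEigenvalue μ
    · rcases he μ hμ with h | h
      · refine ⟨v, 0, by simp, gen f hθ.le ?_ k v hk', by simp⟩
        calc θ * ‖μ‖ < θ * θ⁻¹ := by gcongr
          _ = 1 := mul_inv_cancel₀ hθ.ne'
      · have hμ0 : μ ≠ 0 := by
          intro h0
          rw [h0, norm_zero] at h
          exact absurd hθ (not_lt.2 h.le)
        refine ⟨0, v, by simp, by simp, gen g hθ.le (μ := μ⁻¹) ?_ k v ?_⟩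
        · rw [norm_inv]
          calc θ * ‖μ‖⁻¹ < ‖μ‖ * ‖μ‖⁻¹ := by
                have : 0 < ‖μ‖⁻¹ := inv_pos.2 (hθ.trans h)
                gcongr
            _ = 1 := mul_inv_cancel₀ (hθ.trans h).ne'
        · have h1 : g - algebraMap ℂ (Module.End ℂ W) μ⁻¹ =
              (-(algebraMap ℂ (Module.End ℂ W) μ⁻¹) * g) * (f - algebraMap ℂ (Module.End ℂ W) μ) := by
            rw [mul_sub, mul_assoc, hgf, mul_one, neg_mul, neg_mul, mul_assoc,
              ← Algebra.commutes μ g, ← mul_assoc, ← map_mul, inv_mul_cancel₀ hμ0, map_one, one_mul]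
            abel
          have hc : Commute (-(algebraMap ℂ (Module.End ℂ W) μ⁻¹) * g)
              (f - algebraMap ℂ (Module.End ℂ W) μ) := by
            refine Commute.mul_left (Commute.neg_left (Algebra.commute_algebraMap_left _ _)) ?_
            refine Commute.sub_right ?_ (Algebra.commute_algebraMap_right _ _)
            rw [Commute, SemiconjBy, hgf, hfg]
          rw [h1, hc.mul_pow, Module.End.mul_apply, hk', map_zero]
    · have h0 : v = 0 := by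
        have hinj : Function.Injective (f - algebraMap ℂ (Module.End ℂ W) μ) := by
          rw [← LinearMap.ker_eq_bot]
          by_contra hne
          exact hμ (Module.End.hasEigenvalue_iff.2 (by
            rwa [Module.End.eigenspace_def, Algebra.algebraMap_eq_smul_one] at *))
        have hinj2 : Function.Injective ((f - algebraMap ℂ (Module.End ℂ W) μ) ^ k) := by
          rw [Module.End.coe_pow]
          exact hinj.iterate k
        exact hinj2 (by rw [hk', map_zero])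
      exact ⟨0, 0, by simp [h0], by simp, by simp⟩

/-- Powers of a unit complex number come close to `1`. -/
theorem near_one {z : ℂ} (hz : ‖z‖ = 1) {ε : ℝ} (hε : 0 < ε) : ∃ p : ℕ, 1 ≤ p ∧ ‖1 - z ^ p‖ < ε := by
  have hc : IsCompact (Metric.closedBall (0 : ℂ) 1) := isCompact_closedBall 0 1
  have hm : ∀ n : ℕ, z ^ n ∈ Metric.closedBall (0 : ℂ) 1 := fun n => by
    simp [hz]
  obtain ⟨a, -, φ, hφ, hlim⟩ := hc.tendsto_subseq hm
  have hcau := hlim.cauchySeq
  obtain ⟨N, hN⟩ := Metric.cauchySeq_iff'.1 hcau ε hε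
  refine ⟨φ (N + 1) - φ N, ?_, ?_⟩
  · have := hφ (show N < N + 1 by omega)
    omega
  · have h1 := hN (N + 1) (Nat.le_succ N)
    have h2 : φ N ≤ φ (N + 1) := (hφ (Nat.lt_succ_self N)).le
    simp only [Function.comp] at h1
    rw [dist_eq_norm] at h1
    have h3 : z ^ φ (N + 1) - z ^ φ N = z ^ φ N * (z ^ (φ (N + 1) - φ N) - 1) := by
      rw [mul_sub, ← pow_add, Nat.add_sub_cancel' h2, mul_one]
    rw [h3, norm_mul, norm_pow, hz, one_pow, one_mul] at h1
    rwa [norm_sub_rev]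

section real

variable {E : Type} [NormedAddCommGroup E] [NormedSpace ℝ E] [FiniteDimensional ℝ E]

/-- coordinates -/
noncomputable def co (E : Type) [NormedAddCommGroup E] [NormedSpace ℝ E] [FiniteDimensional ℝ E] :
    E ≃L[ℝ] (Fin (Module.finrank ℝ E) → ℝ) := (Module.finBasis ℝ E).equivFunL

/-- real part -/
noncomputable def R (E : Type) [NormedAddCommGroup E] [NormedSpace ℝ E] [FiniteDimensional ℝ E] :
    (Fin (Module.finrank ℝ E) → ℂ) →L[ℝ] E :=
  ((co E).symm : (Fin (Module.finrank ℝ E) → ℝ) →L[ℝ] E).comp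
    (ContinuousLinearMap.pi fun i => Complex.reCLM.comp (ContinuousLinearMap.proj i))

/-- imaginary part -/
noncomputable def J (E : Type) [NormedAddCommGroup E] [NormedSpace ℝ E] [FiniteDimensional ℝ E] :
    (Fin (Module.finrank ℝ E) → ℂ) →L[ℝ] E :=
  ((co E).symm : (Fin (Module.finrank ℝ E) → ℝ) →L[ℝ] E).comp
    (ContinuousLinearMap.pi fun i => Complex.imCLM.comp (ContinuousLinearMap.proj i))

theorem RJ_eq {v : Fin (Module.finrank ℝ E) → ℂ} (h1 : R E v = 0) (h2 : J E v = 0) : v = 0 := by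
  have h3 : (fun i => (v i).re) = 0 := (co E).symm.injective (by simpa [R] using h1)
  have h4 : (fun i => (v i).im) = 0 := (co E).symm.injective (by simpa [J] using h2)
  funext i
  exact Complex.ext (congrFun h3 i) (congrFun h4 i)

/-- the matrix -/
noncomputable def mat (N : E →ₗ[ℝ] E) :
    Matrix (Fin (Module.finrank ℝ E)) (Fin (Module.finrank ℝ E)) ℝ :=
  LinearMap.toMatrix (Module.finBasis ℝ E) (Module.finBasis ℝ E) N

/-- the complex extension -/
noncomputable def ext (N : E →ₗ[ℝ] E) : Module.End ℂ (Fin (Module.finrank ℝ E) → ℂ) :=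
  Matrix.toLin' ((mat N).map (algebraMap ℝ ℂ))

theorem ext_mul (N N' : E →ₗ[ℝ] E) : ext (N ∘ₗ N') = ext N * ext N' := by
  rw [ext, mat, LinearMap.toMatrix_comp _ (Module.finBasis ℝ E), Matrix.map_mul, Matrix.toLin'_mul]
  rfl

theorem ext_one : ext (LinearMap.id : E →ₗ[ℝ] E) = 1 := by
  rw [ext, mat, LinearMap.toMatrix_id, Matrix.map_one _ (map_zero _) (map_one _), Matrix.toLin'_one]
  rfl

theorem mat_re (N : E →ₗ[ℝ] E) (x : E) (i : Fin (Module.finrank ℝ E)) :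
    ∑ j, mat N i j * co E x j = co E (N x) i := by
  have h := congrFun (LinearMap.toMatrix_mulVec_repr (Module.finBasis ℝ E) (Module.finBasis ℝ E) N x) i
  simpa [Matrix.mulVec, dotProduct, mat, co] using h

theorem R_ext (N : E →ₗ[ℝ] E) (v : Fin (Module.finrank ℝ E) → ℂ) : R E (ext N v) = N (R E v) := by
  apply (co E).injective
  funext i
  rw [← mat_re]
  simp [R, ext, Matrix.toLin'_apply, Matrix.mulVec, dotProduct]

theorem J_ext (N : E →ₗ[ℝ] E) (v : Fin (Module.finrank ℝ E) → ℂ) : J E (ext N v) = N (J E v) := by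
  apply (co E).injective
  funext i
  rw [← mat_re]
  simp [J, ext, Matrix.toLin'_apply, Matrix.mulVec, dotProduct]

/-- a real vector as a complex one -/
noncomputable def toC (x : E) : Fin (Module.finrank ℝ E) → ℂ := fun i => (co E x i : ℂ)

theorem R_toC (x : E) : R E (toC x) = x := by
  apply (co E).injective
  funext i
  simp [R, toC]

/-- the linear map -/
abbrev ml (M : E ≃L[ℝ] E) : E →ₗ[ℝ] E := (M : E →L[ℝ] E).toLinearMap

theorem R_pow (M : E ≃L[ℝ] E) (p : ℕ) (v : Fin (Module.finrank ℝ E) → ℂ) :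
    R E (((ext (ml M)) ^ p) v) = (M ^ p) (R E v) := by
  induction p with
  | zero => rfl
  | succ p ih =>
    rw [pow_succ', Module.End.mul_apply, R_ext, ih, pow_succ']
    rfl

theorem J_pow (M : E ≃L[ℝ] E) (p : ℕ) (v : Fin (Module.finrank ℝ E) → ℂ) :
    J E (((ext (ml M)) ^ p) v) = (M ^ p) (J E v) := by
  induction p with
  | zero => rfl
  | succ p ih =>
    rw [pow_succ', Module.End.mul_apply, J_ext, ih, pow_succ']
    rfl

theorem eig_pow (f : Module.End ℂ (Fin (Module.finrank ℝ E) → ℂ)) {μ : ℂ}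
    {v : Fin (Module.finrank ℝ E) → ℂ} (h : f v = μ • v) (p : ℕ) : (f ^ p) v = μ ^ p • v := by
  induction p with
  | zero => simp
  | succ p ih => rw [pow_succ, Module.End.mul_apply, h, map_smul, ih, smul_smul, pow_succ']

/-- No eigenvalues of modulus between `θ⁻¹` and `θ`. -/
theorem noeig {η θ : ℝ} (hη : 0 < η) (hθ : 1 < θ) {M : E ≃L[ℝ] E} (hM : Good η θ M) {μ : ℂ}
    (hμ : (ext (ml M)).HasEigenvalue μ) : ‖μ‖ < θ⁻¹ ∨ θ < ‖μ‖ := by
  by_contra hcon
  push Not at hcon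
  obtain ⟨h1, h2⟩ := hcon
  obtain ⟨v, hv⟩ := hμ.exists_hasEigenvector
  have hv1 : ext (ml M) v = μ • v := hv.apply_eq_smul
  have hθ0 : 0 < θ := by linarith
  have hμ0 : 0 < ‖μ‖ := (inv_pos.2 hθ0).trans_le h1
  have hz : ‖((‖μ‖⁻¹ : ℝ) : ℂ) * μ‖ = 1 := by
    rw [norm_mul, Complex.norm_real, norm_inv, norm_norm, inv_mul_cancel₀ hμ0.ne']
  have hT : ∀ T : (Fin (Module.finrank ℝ E) → ℂ) →L[ℝ] E,
      (∀ p, T (((ext (ml M)) ^ p) v) = (M ^ p) (T v)) → T v = 0 := by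
    intro T hTp
    by_contra hne
    have hpos : 0 < η * ‖T v‖ := mul_pos hη (norm_pos_iff.2 hne)
    obtain ⟨p, hp, hp2⟩ := near_one hz (ε := η * ‖T v‖ / (‖T‖ * ‖v‖ + 1)) (by positivity)
    have h3 := hM p hp (‖μ‖⁻¹ ^ p) (by
      gcongr
      ) (by
      have : ‖μ‖⁻¹ ≤ θ := by
        rw [inv_le_comm₀ hμ0 hθ0]
        exact h1
      gcongr) (T v)
    rw [← hTp, eig_pow _ hv1, ← map_smul, ← map_sub] at h3
    have h4 : v - (‖μ‖⁻¹ ^ p) • μ ^ p • v = (1 - (((‖μ‖⁻¹ : ℝ) : ℂ) * μ) ^ p) • v := by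
      rw [sub_smul, one_smul, mul_pow, mul_smul]
      congr 1
      rw [← Complex.coe_smul, Complex.ofReal_pow]
    rw [h4] at h3
    have h5 := T.le_opNorm ((1 - (((‖μ‖⁻¹ : ℝ) : ℂ) * μ) ^ p) • v)
    rw [norm_smul] at h5
    have h6 : ‖1 - (((‖μ‖⁻¹ : ℝ) : ℂ) * μ) ^ p‖ * (‖T‖ * ‖v‖ + 1) < η * ‖T v‖ :=
      (lt_div_iff₀ (by positivity)).1 hp2
    have h7 : 0 ≤ ‖1 - (((‖μ‖⁻¹ : ℝ) : ℂ) * μ) ^ p‖ := norm_nonneg _
    nlinarith
  exact hv.2 (RJ_eq (hT _ fun p => R_pow M p v) (hT _ fun p => J_pow M p v))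

/-- The strong splitting. -/
theorem strong {η θ : ℝ} (hη : 0 < η) (hθ : 1 < θ) {M : E ≃L[ℝ] E} (hM : Good η θ M) (w : E) :
    ∃ s u : E, w = s + u ∧ Tendsto (fun p : ℕ => θ ^ p • (M ^ p) s) atTop (𝓝 0) ∧
      Tendsto (fun p : ℕ => θ ^ p • (M⁻¹ ^ p) u) atTop (𝓝 0) := by
  have hθ0 : 0 < θ := by linarith
  have h1 : ext (ml M) * ext (ml M⁻¹) = 1 := by
    rw [← ext_mul, ← ext_one]
    congr 1
    ext x
    exact M.apply_symm_apply x
  have h2 : ext (ml M⁻¹) * ext (ml M) = 1 := by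
    rw [← ext_mul, ← ext_one]
    congr 1
    ext x
    exact M.symm_apply_apply x
  obtain ⟨a, b, hab, ha, hb⟩ := split_c (ext (ml M)) (ext (ml M⁻¹)) h1 h2 hθ0
    (fun μ hμ => noeig hη hθ hM hμ) (toC w)
  have key : ∀ (N : E ≃L[ℝ] E) (x : Fin (Module.finrank ℝ E) → ℂ),
      Tendsto (fun p : ℕ => ((θ : ℂ) ^ p) • ((ext (ml N)) ^ p) x) atTop (𝓝 0) →
      Tendsto (fun p : ℕ => θ ^ p • (N ^ p) (R E x)) atTop (𝓝 0) := by
    intro N x hx
    have h3 := ((R E).continuous.tendsto 0).comp hx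
    rw [map_zero] at h3
    refine h3.congr fun p => ?_
    change R E (((θ : ℂ) ^ p) • ((ext (ml N)) ^ p) x) = θ ^ p • (N ^ p) (R E x)
    rw [← Complex.ofReal_pow, Complex.coe_smul, (R E).map_smul, R_pow]
  refine ⟨R E a, R E b, ?_, key M a ha, key M⁻¹ b hb⟩
  rw [← map_add, ← hab, R_toC]

/-- Pointwise convergence to zero on a subspace is uniform. -/
theorem unif (G : Submodule ℝ E) (T : ℕ → E →L[ℝ] E)
    (hT : ∀ v ∈ G, Tendsto (fun p => T p v) atTop (𝓝 0)) :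
    ∀ᶠ p in atTop, ∀ v ∈ G, ‖T p v‖ ≤ 2⁻¹ * ‖v‖ := by
  let b := Module.finBasis ℝ G
  obtain ⟨C, hC, h⟩ := b.exists_opNorm_le (F := E)
  have h1 : ∀ i, ∀ᶠ p in atTop, ‖T p (b i)‖ ≤ 2⁻¹ / C := fun i =>
    ((hT (b i) (b i).2).norm.eventually (ge_mem_nhds (by
      rw [norm_zero]
      positivity)))
  filter_upwards [eventually_all.2 h1] with p hp v hv
  have h2 := h (u := (T p).comp G.subtypeL) (M := 2⁻¹ / C) (by positivity) hp
  have h3 := ((T p).comp G.subtypeL).le_opNorm ⟨v, hv⟩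
  have h4 : C * (2⁻¹ / C) = 2⁻¹ := by field_simp
  rw [h4] at h2
  exact h3.trans (by gcongr; exact le_rfl)

theorem Es_mem {M : E ≃L[ℝ] E} {v : E} : v ∈ Es M ↔ Tendsto (fun p : ℕ => (M ^ p) v) atTop (𝓝 0) :=
  Iff.rfl

theorem of_strong {θ : ℝ} (hθ : 1 < θ) {N : E ≃L[ℝ] E} {v : E}
    (h : Tendsto (fun p : ℕ => θ ^ p • (N ^ p) v) atTop (𝓝 0)) : v ∈ Es N := by
  rw [Es_mem]
  refine squeeze_zero_norm (fun p => ?_) (tendsto_zero_iff_norm_tendsto_zero.1 h)
  rw [norm_smul, Real.norm_of_nonneg (by positivity)]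
  exact le_mul_of_one_le_left (norm_nonneg _) (one_le_pow₀ hθ.le)

theorem Es_inv {M : E ≃L[ℝ] E} {v : E} (h : v ∈ Es M) : M v ∈ Es M := by
  rw [Es_mem] at h ⊢
  refine ((tendsto_add_atTop_iff_nat 1).2 h).congr fun p => ?_
  rw [pow_succ]
  rfl

theorem Es_inv' {M : E ≃L[ℝ] E} {v : E} (h : v ∈ Es M⁻¹) : M v ∈ Es M⁻¹ := by
  rw [Es_mem] at h ⊢
  rw [← tendsto_add_atTop_iff_nat 1]
  refine h.congr fun p => ?_
  rw [pow_succ]
  exact congrArg _ (M.symm_apply_apply v).symm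

theorem pow_mem {M : E ≃L[ℝ] E} {v : E} (h1 : v ∈ Es M) (h2 : v ∈ Es M⁻¹) (p : ℕ) :
    (M ^ p) v ∈ Es M ∧ (M ^ p) v ∈ Es M⁻¹ := by
  induction p with
  | zero => exact ⟨h1, h2⟩
  | succ p ih =>
    rw [pow_succ']
    exact ⟨Es_inv ih.1, Es_inv' ih.2⟩

theorem disj (M : E ≃L[ℝ] E) {v : E} (h1 : v ∈ Es M) (h2 : v ∈ Es M⁻¹) : v = 0 := by
  have h3 := unif (Es M ⊓ Es M⁻¹) (fun p => ((M ^ p : E ≃L[ℝ] E) : E →L[ℝ] E)) fun v hv => hv.1
  have h4 := unif (Es M ⊓ Es M⁻¹) (fun p => ((M⁻¹ ^ p : E ≃L[ℝ] E) : E →L[ℝ] E)) fun v hv => hv.2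
  obtain ⟨p, h5, h6⟩ := (h3.and h4).exists
  have h7 := h5 v ⟨h1, h2⟩
  have h8 := h6 ((M ^ p) v) (pow_mem h1 h2 p)
  have h9 : (M⁻¹ ^ p) ((M ^ p) v) = v := by
    have : (M⁻¹ ^ p * M ^ p : E ≃L[ℝ] E) = 1 := by
      rw [inv_pow, inv_mul_cancel]
    exact DFunLike.congr_fun this v
  have h10 : ‖v‖ ≤ 2⁻¹ * ‖(M ^ p) v‖ := by
    have := h8
    rwa [ContinuousLinearEquiv.coe_coe, h9] at this
  have h11 : ‖(M ^ p) v‖ ≤ 2⁻¹ * ‖v‖ := h7
  have h12 : ‖v‖ ≤ 0 := by nlinarith [norm_nonneg v]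
  exact norm_le_zero_iff.1 h12

end real

/-- **SPL.** -/
theorem main : S_SPL := by
  intro E _ _ _ η θ hη hθ M hM
  have hS : ∀ v ∈ Es M, Tendsto (fun p : ℕ => θ ^ p • (M ^ p) v) atTop (𝓝 0) := by
    intro v hv
    obtain ⟨s, u, h1, h2, h3⟩ := strong hη hθ hM v
    have h4 : u ∈ Es M := by
      rw [show u = v - s by rw [h1]; abel]
      exact (Es M).sub_mem hv (of_strong hθ h2)
    have h5 : u = 0 := disj M h4 (of_strong hθ h3)
    rw [h1, h5, add_zero]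
    exact h2
  have hU : ∀ v ∈ Eu M, Tendsto (fun p : ℕ => θ ^ p • (M⁻¹ ^ p) v) atTop (𝓝 0) := by
    intro v hv
    obtain ⟨s, u, h1, h2, h3⟩ := strong hη hθ hM v
    have h4 : s ∈ Es M⁻¹ := by
      rw [show s = v - u by rw [h1]; abel]
      exact (Es M⁻¹).sub_mem hv (of_strong hθ h3)
    have h5 : s = 0 := disj M (of_strong hθ h2) h4
    rw [h1, h5, zero_add]
    exact h3
  refine ⟨⟨?_, ?_⟩, hS, hU⟩
  · rw [Submodule.disjoint_def]
    exact fun v h1 h2 => disj M h1 h2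
  · rw [codisjoint_iff, eq_top_iff]
    intro v _
    obtain ⟨s, u, h1, h2, h3⟩ := strong hη hθ hM v
    rw [h1]
    exact Submodule.add_mem_sup (of_strong hθ h2) (of_strong hθ h3)

end Pool.Agent.H18.PT
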