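import Pool.Agent.H20.PT.Hyp

/-!
# Full shifts for high iterates of hyperbolic toral automorphisms (`S_TOR`)
-/

set_option autoImplicit false
set_option linter.unusedSectionVars false

open Filter Set Metric Topology

universe u v w

namespace Pool.Agent.H18.PT

open Pool.Agent.H20.PT Pool.Agent.R773.TE

variable {W : Type} [NormedAddCommGroup W] [NormedSpace ℝ W]

theorem pow_iter (A : W ≃L[ℝ] W) (j : ℕ) (v : W) : (A ^ j) v = A^[j] v := by
  induction j generalizing v with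
  | zero => rfl
  | succ j ih =>
    rw [pow_succ, Function.iterate_succ_apply, ← ih]
    rfl

theorem symm_pow (A : W ≃L[ℝ] W) (j : ℕ) (v : W) : (A ^ j).symm v = A.symm^[j] v := by
  rw [ContinuousLinearEquiv.symm_apply_eq, pow_iter]
  induction j generalizing v with
  | zero => rfl
  | succ j ih =>
    rw [Function.iterate_succ_apply, Function.iterate_succ_apply' A.symm, A.apply_symm_apply]
    exact ih v

/-- The periodic solution. -/
theorem exists_periodic [CompleteSpace W] (B : W ≃L[ℝ] W) (P : W →L[ℝ] W)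
    (hPP : ∀ v, P (P v) = P v) (hBP : ∀ v, B (P v) = P (B v)) {q : ℝ} (hq : 0 ≤ q) (hq4 : q ≤ 1 / 4)
    (h1 : ∀ v, ‖B (P v)‖ ≤ q * ‖v‖) (h2 : ∀ v, ‖B.symm (v - P v)‖ ≤ q * ‖v‖)
    (n : ℕ) [NeZero n] (m : ZMod n → W) {R : ℝ} (hR : 0 ≤ R) (hm : ∀ i, ‖m i‖ ≤ R) :
    ∃ z : ZMod n → W, (∀ i, B (z i) = z (i + 1) - m (i + 1)) ∧
      ∀ i, ‖z i - P (m i)‖ ≤ q * (4 * (‖P‖ + 1) * R + R) := by
  let T : (ZMod n → W) → ZMod n → W := fun z i =>
    B (P (z (i - 1))) + P (m i) + B.symm ((z (i + 1) - m (i + 1)) - P (z (i + 1) - m (i + 1)))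
  have hT : ContractingWith (1 / 2 : NNReal) T := by
    refine ⟨by
      rw [← NNReal.coe_lt_coe]
      norm_num, LipschitzWith.of_dist_le_mul fun z z' => ?_⟩
    rw [dist_pi_le_iff (by positivity)]
    intro i
    have h3 : T z i - T z' i = B (P (z (i - 1) - z' (i - 1))) +
        B.symm ((z (i + 1) - z' (i + 1)) - P (z (i + 1) - z' (i + 1))) := by
      simp only [T, map_sub]
      abel
    rw [dist_eq_norm, h3]
    have h4 : ∀ k, ‖z k - z' k‖ ≤ dist z z' := fun k => by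
      rw [← dist_eq_norm]
      exact dist_le_pi_dist z z' k
    calc ‖B (P (z (i - 1) - z' (i - 1))) +
          B.symm ((z (i + 1) - z' (i + 1)) - P (z (i + 1) - z' (i + 1)))‖
        ≤ q * ‖z (i - 1) - z' (i - 1)‖ + q * ‖z (i + 1) - z' (i + 1)‖ :=
          (norm_add_le _ _).trans (add_le_add (h1 _) (h2 _))
      _ ≤ 1 / 4 * dist z z' + 1 / 4 * dist z z' := by
          gcongr <;> exact h4 _
      _ = ((1 / 2 : NNReal) : ℝ) * dist z z' := by
          push_cast
          ring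
  let z := hT.fixedPoint T
  have hz : T z = z := hT.fixedPoint_isFixedPt
  have hzi : ∀ i, z i = B (P (z (i - 1))) + P (m i) +
      B.symm ((z (i + 1) - m (i + 1)) - P (z (i + 1) - m (i + 1))) := fun i =>
    (congrFun hz i).symm
  have hsP : ∀ v, B.symm (P v) = P (B.symm v) := fun v => by
    rw [ContinuousLinearEquiv.symm_apply_eq, hBP, B.apply_symm_apply]
  have hP : ∀ i, P (z i) = B (P (z (i - 1))) + P (m i) := by
    intro i
    rw [hzi i, map_add, map_add, ← hsP, map_sub P, hPP, hPP, sub_self, map_zero, add_zero]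
    congr 1
    rw [← hBP, hPP]
  have hbd : ‖z‖ ≤ 2 * (‖P‖ + 1) * R := by
    have h5 : ‖z‖ ≤ 2 * q * ‖z‖ + (‖P‖ + q) * R := by
      rw [pi_norm_le_iff_of_nonneg (by positivity)]
      intro i
      have h6 : ‖z (i - 1)‖ ≤ ‖z‖ := norm_le_pi_norm z _
      have h7 : ‖z (i + 1) - m (i + 1)‖ ≤ ‖z‖ + R :=
        (norm_sub_le _ _).trans (add_le_add (norm_le_pi_norm z _) (hm _))
      rw [hzi i]
      calc ‖B (P (z (i - 1))) + P (m i) +
            B.symm ((z (i + 1) - m (i + 1)) - P (z (i + 1) - m (i + 1)))‖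
          ≤ ‖B (P (z (i - 1)))‖ + ‖P (m i)‖ +
            ‖B.symm ((z (i + 1) - m (i + 1)) - P (z (i + 1) - m (i + 1)))‖ :=
            (norm_add_le _ _).trans (add_le_add (norm_add_le _ _) le_rfl)
        _ ≤ q * ‖z‖ + ‖P‖ * R + q * (‖z‖ + R) := by
            gcongr
            · exact (h1 _).trans (by gcongr)
            · exact (P.le_opNorm _).trans (by gcongr; exact hm i)
            · exact (h2 _).trans (by gcongr)
        _ = 2 * q * ‖z‖ + (‖P‖ + q) * R := by ring
    have h8 : 0 ≤ ‖z‖ := norm_nonneg _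
    have h9 : 0 ≤ ‖P‖ := norm_nonneg _
    nlinarith [mul_nonneg h9 hR, mul_nonneg hq hR, mul_nonneg hq h8]
  refine ⟨z, fun i => ?_, fun i => ?_⟩
  · have h3 := hP (i + 1)
    rw [add_sub_cancel_right] at h3
    have h4 : B (z i - P (z i)) = (z (i + 1) - m (i + 1)) - P (z (i + 1) - m (i + 1)) := by
      have h5 : z i - P (z i) =
          B.symm ((z (i + 1) - m (i + 1)) - P (z (i + 1) - m (i + 1))) := by
        rw [hP i]
        nth_rewrite 1 [hzi i]
        abel
      rw [h5, B.apply_symm_apply]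
    have h6 : B (z i) = B (z i - P (z i)) + B (P (z i)) := by rw [← map_add, sub_add_cancel]
    have h7 : B (P (z i)) = P (z (i + 1)) - P (m (i + 1)) := by rw [h3]; abel
    rw [h6, h4, h7, map_sub]
    abel
  · have h3 : z i - P (m i) = B (P (z (i - 1))) +
        B.symm ((z (i + 1) - m (i + 1)) - P (z (i + 1) - m (i + 1))) := by
      nth_rewrite 1 [hzi i]
      abel
    have h6 : ‖z (i - 1)‖ ≤ ‖z‖ := norm_le_pi_norm z _
    have h7 : ‖z (i + 1) - m (i + 1)‖ ≤ ‖z‖ + R :=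
      (norm_sub_le _ _).trans (add_le_add (norm_le_pi_norm z _) (hm _))
    rw [h3]
    calc ‖B (P (z (i - 1))) + B.symm ((z (i + 1) - m (i + 1)) - P (z (i + 1) - m (i + 1)))‖
        ≤ q * ‖z (i - 1)‖ + q * ‖z (i + 1) - m (i + 1)‖ :=
          (norm_add_le _ _).trans (add_le_add (h1 _) (h2 _))
      _ ≤ q * ‖z‖ + q * (‖z‖ + R) := by gcongr
      _ = q * (2 * ‖z‖ + R) := by ring
      _ ≤ q * (4 * (‖P‖ + 1) * R + R) := mul_le_mul_of_nonneg_left (by linarith) hq

/-- A sequence in a discrete group which tends to zero. -/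
theorem zero_of_tendsto (Λ : AddSubgroup W) [DiscreteTopology Λ] {x : ℕ → W} (hx : ∀ i, x i ∈ Λ)
    (h : Tendsto x atTop (𝓝 0)) : ∃ i, x i = 0 := by
  have h1 : Tendsto (fun i => (⟨x i, hx i⟩ : Λ)) atTop (𝓝 0) := by
    rw [tendsto_subtype_rng]
    exact h
  rw [nhds_discrete, tendsto_pure] at h1
  obtain ⟨i, hi⟩ := h1.exists
  exact ⟨i, congrArg Subtype.val hi⟩

theorem symm_inv {A : W ≃L[ℝ] W} {Λ : AddSubgroup W} (hi : ∀ u, u ∈ Λ ↔ A u ∈ Λ) {u : W}
    (hu : u ∈ Λ) : A.symm u ∈ Λ := by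
  rw [hi, A.apply_symm_apply]
  exact hu

/-- The projection of a nonzero lattice vector is not in the lattice. -/
theorem proj_not_mem {A : W ≃L[ℝ] W} {Λ : AddSubgroup W} [DiscreteTopology Λ]
    (hi : ∀ u, u ∈ Λ ↔ A u ∈ Λ) {P : W →L[ℝ] W} {C μ : ℝ} (hμ0 : 0 < μ) (hμ : μ < 1)
    (hC : ∀ (n : ℕ) (v : W), ‖A^[n] (P v)‖ ≤ C * μ ^ n * ‖v‖ ∧
      ‖A.symm^[n] (v - P v)‖ ≤ C * μ ^ n * ‖v‖) {m : W} (hm : m ∈ Λ) (hm0 : m ≠ 0) : P m ∉ Λ := by
  intro hPm
  have hlim : ∀ v : W, Tendsto (fun n : ℕ => C * μ ^ n * ‖v‖) atTop (𝓝 0) := fun v => by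
    have := ((tendsto_pow_atTop_nhds_zero_of_lt_one hμ0.le hμ).const_mul C).mul_const ‖v‖
    simpa using this
  have h1 : ∀ i, A^[i] (P m) ∈ Λ := fun i => by
    induction i with
    | zero => exact hPm
    | succ i ih =>
      rw [Function.iterate_succ_apply']
      exact (hi _).1 ih
  obtain ⟨i, h2⟩ := zero_of_tendsto Λ h1 (squeeze_zero_norm (fun n => (hC n m).1) (hlim m))
  have h3 : P m = 0 := by
    rw [← pow_iter] at h2
    exact (A ^ i).injective (by rw [h2, map_zero])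
  have h4 : ∀ i, A.symm^[i] (m - P m) ∈ Λ := fun i => by
    induction i with
    | zero =>
      rw [h3, sub_zero]
      exact hm
    | succ i ih =>
      rw [Function.iterate_succ_apply']
      exact symm_inv hi ih
  obtain ⟨i, h5⟩ := zero_of_tendsto Λ h4 (squeeze_zero_norm (fun n => (hC n m).2) (hlim m))
  rw [← symm_pow, h3, sub_zero] at h5
  exact hm0 ((A ^ i).symm.injective (by rw [h5, map_zero]))

/-- The lattice is not zero. -/
theorem exists_ne_zero [Nontrivial W] {Λ : AddSubgroup W}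
    (hl : ∃ C : ℝ, ∀ z : W, ∃ u ∈ Λ, ‖z - u‖ ≤ C) : ∃ m ∈ Λ, m ≠ 0 := by
  obtain ⟨C, hC⟩ := hl
  by_contra hcon
  push Not at hcon
  obtain ⟨z, hz⟩ := NormedSpace.exists_lt_norm ℝ W C
  obtain ⟨u, hu, h1⟩ := hC z
  rw [hcon u hu, sub_zero] at h1
  exact absurd h1 (not_le.2 hz)

/-- Separation from the lattice. -/
theorem exists_sep {Λ : AddSubgroup W} (hcl : IsClosed (Λ : Set W)) {x : W} (hx : x ∉ Λ) :
    ∃ ε : ℝ, 0 < ε ∧ ∀ y, ‖y‖ ≤ 2 * ε → x + y ∉ Λ := by
  obtain ⟨r, hr, h⟩ := Metric.mem_nhds_iff.1 (hcl.isOpen_compl.mem_nhds hx)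
  refine ⟨r / 4, by positivity, fun y hy => ?_⟩
  refine h ?_
  rw [mem_ball, dist_eq_norm, add_sub_cancel_left]
  linarith

/-- **TOR.** -/
theorem tor : S_TOR.{v} := by
  intro W _ _ _ _ Λ _ _ A hA k
  obtain ⟨P, C, μ, hC0, hμ0, hμ1, hPP, hAP, hC⟩ := hA.hyp
  obtain ⟨m, hm, hm0⟩ := exists_ne_zero hA.lattice
  have hΛ : IsClosed (Λ : Set W) := inferInstance
  -- the points
  let a : Fin k → W := fun i => (i : ℕ) • m
  have haΛ : ∀ i, a i ∈ Λ := fun i => Λ.nsmul_mem hm _
  have hne : ∀ i j, i ≠ j → P (a i) - P (a j) ∉ Λ := by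
    intro i j hij
    rw [← map_sub]
    refine proj_not_mem hA.inv hμ0 hμ1 hC (Λ.sub_mem (haΛ i) (haΛ j)) ?_
    intro h
    have h1 : (((i : ℕ) : ℝ) - ((j : ℕ) : ℝ)) • m = 0 := by
      rw [sub_smul, Nat.cast_smul_eq_nsmul, Nat.cast_smul_eq_nsmul]
      exact h
    rcases smul_eq_zero.1 h1 with h2 | h2
    · exact hij (Fin.ext (Nat.cast_injective (R := ℝ) (sub_eq_zero.1 h2)))
    · exact hm0 h2
  have hε : ∃ ε : ℝ, 0 < ε ∧ ∀ i j, i ≠ j → ∀ y, ‖y‖ ≤ 2 * ε → P (a i) - P (a j) + y ∉ Λ := by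
    have h1 : ∀ p : Fin k × Fin k, ∃ ε : ℝ, 0 < ε ∧ (p.1 ≠ p.2 → ∀ y, ‖y‖ ≤ 2 * ε →
        P (a p.1) - P (a p.2) + y ∉ Λ) := by
      intro p
      by_cases hp : p.1 = p.2
      · exact ⟨1, one_pos, fun h => absurd hp h⟩
      · obtain ⟨ε, h2, h3⟩ := exists_sep hΛ (hne _ _ hp)
        exact ⟨ε, h2, fun _ => h3⟩
    choose e he1 he2 using h1
    refine ⟨Finset.univ.inf' ⟨none, Finset.mem_univ _⟩
      (fun o : Option (Fin k × Fin k) => o.elim 1 e), ?_, fun i j hij y hy => ?_⟩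
    · rw [Finset.lt_inf'_iff]
      intro o _
      cases o with
      | none => exact one_pos
      | some p => exact he1 p
    · refine he2 (i, j) hij y (hy.trans ?_)
      gcongr
      exact Finset.inf'_le (fun o : Option (Fin k × Fin k) => o.elim 1 e)
        (Finset.mem_univ (some (i, j)))
  obtain ⟨ε, hε0, hεs⟩ := hε
  let R : ℝ := k * ‖m‖
  have hR : 0 ≤ R := by positivity
  have haR : ∀ i, ‖a i‖ ≤ R := fun i => by
    refine (norm_nsmul_le).trans ?_
    have : ((i : ℕ) : ℝ) ≤ k := by exact_mod_cast i.2.le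
    simp only [R]
    gcongr
  let D : ℝ := 4 * (‖P‖ + 1) * R + R + 1
  have hD : 0 < D := by positivity
  have hq : ∀ᶠ j : ℕ in atTop, C * μ ^ j ≤ min (1 / 4) (ε / D) := by
    have h1 : Tendsto (fun j : ℕ => C * μ ^ j) atTop (𝓝 (C * 0)) :=
      (tendsto_pow_atTop_nhds_zero_of_lt_one hμ0.le hμ1).const_mul C
    rw [mul_zero] at h1
    exact h1.eventually (ge_mem_nhds (lt_min (by norm_num) (by positivity)))
  obtain ⟨J, hJ⟩ := eventually_atTop.1 hq
  refine ⟨J, fun j hj N _ g τ hg => ?_⟩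
  have hqj := hJ j hj
  let K : Fin k → Set (W ⧸ Λ) := fun i => QuotientAddGroup.mk '' closedBall (P (a i)) ε
  refine ⟨fun i => τ ⁻¹' K i, fun i => ?_, fun i i' hii => ?_, fun n s hn => ?_⟩
  · refine IsClosed.preimage τ.continuous ?_
    have h1 : IsCompact (K i) :=
      (isCompact_closedBall (P (a i)) ε).image QuotientAddGroup.continuous_mk
    exact h1.isClosed
  · rw [Set.disjoint_left]
    rintro y ⟨x, hx, hxy⟩ ⟨x', hx', hxy'⟩
    rw [← hxy', QuotientAddGroup.eq] at hxy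
    rw [mem_closedBall, dist_eq_norm] at hx hx'
    refine hεs i' i hii.symm ((x' - P (a i')) - (x - P (a i))) ?_ ?_
    · exact (norm_sub_le _ _).trans (by linarith)
    · have : P (a i') - P (a i) + ((x' - P (a i')) - (x - P (a i))) = -x + x' := by abel
      rw [this]
      exact hxy
  · have : NeZero n := ⟨by omega⟩
    obtain ⟨z, hz1, hz2⟩ := exists_periodic (A ^ j) P hPP
      (fun v => by
        rw [pow_iter, pow_iter]
        clear hg hqj hj
        induction j generalizing v with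
        | zero => rfl
        | succ j ih => rw [Function.iterate_succ_apply, Function.iterate_succ_apply, hAP, ih])
      (q := C * μ ^ j) (by positivity) (hqj.trans (min_le_left _ _))
      (fun v => by
        rw [pow_iter]
        exact (hC j v).1)
      (fun v => by
        rw [symm_pow]
        exact (hC j v).2) n (fun i => a (s i.val)) hR fun i => haR _
    have hstep : ∀ i : ℕ, g^[i] (τ.symm (QuotientAddGroup.mk (z 0))) =
        τ.symm (QuotientAddGroup.mk (z (i : ZMod n))) := by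
      intro i
      induction i with
      | zero => simp
      | succ i ih =>
        rw [Function.iterate_succ_apply', ih, hg, hz1]
        congr 1
        rw [QuotientAddGroup.eq]
        push_cast
        have : -(z ((i : ZMod n) + 1) - a (s ((i : ZMod n) + 1).val)) + z ((i : ZMod n) + 1) =
            a (s ((i : ZMod n) + 1).val) := by abel
        rw [this]
        exact haΛ _
    refine ⟨τ.symm (QuotientAddGroup.mk (z 0)), ?_, fun i hi => ?_⟩
    · rw [hstep, ZMod.natCast_self]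
    · rw [hstep, mem_preimage, Homeomorph.apply_symm_apply]
      refine ⟨z (i : ZMod n), ?_, rfl⟩
      rw [mem_closedBall, dist_eq_norm]
      have h1 := hz2 (i : ZMod n)
      rw [ZMod.val_natCast, Nat.mod_eq_of_lt hi] at h1
      refine h1.trans ?_
      have h2 : C * μ ^ j ≤ ε / D := hqj.trans (min_le_right _ _)
      calc C * μ ^ j * (4 * (‖P‖ + 1) * R + R) ≤ ε / D * D := by
            gcongr
            simp only [D]
            linarith
        _ = ε := by field_simp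

end Pool.Agent.H18.PT
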